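import Pool.Agent.Helper61.BeesonDir

/-!
# Side lengths of equilateral triangles tiled by a `2π/3` triangle with integer sides

If `a, b, c` are positive integers with `gcd(a, b) = 1` and `c² = a² + b² + ab`, then every `X`
for which the equilateral triangle of side `X` is tiled by copies of the triangle with sides
`a, b, c` is a positive integer multiple of `ab`.

Idea of the proof. Fix `u = (a + b e^{iπ/3}) / c`, a unit complex number of infinite order. For each
direction `d` the total length of the tile sides with (counterclockwise) direction `d` minus the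
total length of those with direction `-d` depends only on the tiled triangle. Give the
directions `± v u^k` (`v` a side direction of the big triangle) the weights `± c` for `k` even and
`± a` for `k` odd, and all other directions the weight `0`. As `c² ≡ a² (mod b)`, each tile has
total weighted side length `≡ 0 (mod b)`, while the big triangle has total weighted side length
`± c X`. Hence `b ∣ X`, and `a ∣ X` by symmetry.
-/

set_option autoImplicit false

namespace Pool.Agent.Results.MP_9dc182_co.SideDivisible

/-- The Euclidean plane. -/
abbrev Plane : Type := EuclideanSpace ℝ (Fin 2)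

/-- `T` is a (closed) triangle with side lengths `a`, `b`, `c`; for a nondegenerate triangle this
says that `T` is congruent (possibly by a reflection) to the triangle with sides `a, b, c`. -/
def IsTriangle (a b c : ℝ) (T : Set Plane) : Prop :=
  ∃ p q r : Plane, dist p q = a ∧ dist q r = b ∧ dist p r = c ∧ T = convexHull ℝ {p, q, r}

/-- `U` is the union of finitely many triangles with side lengths `a, b, c` with pairwise disjoint
interiors. -/
def TilesInto (U : Set Plane) (a b c : ℝ) : Prop :=
  ∃ (N : ℕ) (t : Fin N → Set Plane), (∀ i, IsTriangle a b c (t i)) ∧ (⋃ i, t i) = U ∧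
    Pairwise fun i j => Disjoint (interior (t i)) (interior (t j))

/-- `X > 0` is equiconstructible by `(a, b, c)`: an equilateral triangle of side `X` tiles into
copies of the triangle `(a, b, c)`. -/
def Equiconstructible (a b c X : ℝ) : Prop :=
  0 < X ∧ ∃ U : Set Plane, IsTriangle X X X U ∧ TilesInto U a b c

/-- Every `X` equiconstructible by `(a, b, c)` is a positive integer multiple of `ab`. -/
theorem result (a b c : ℕ) (ha : 0 < a) (hb : 0 < b) (hc : 0 < c) (hab : Nat.gcd a b = 1)
    (habc : c ^ 2 = a ^ 2 + b ^ 2 + a * b) (X : ℝ) (hX : Equiconstructible a b c X) :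
    ∃ m : ℕ, 0 < m ∧ X = m * (a * b) := by
  obtain ⟨hX0, U, ⟨P, Q, R, g1, g2, g3, hU⟩, N, t, ht, hunion, hdisj⟩ := hX
  choose p q r h1 h2 h3 hT using ht
  set e : Plane ≃ₗᵢ[ℝ] ℂ := Complex.orthonormalBasisOneI.repr.symm with he
  have himg : ∀ x y z : Plane, Pool.Agent.Helper61.TriArea.tri (e x) (e y) (e z) =
      e.toHomeomorph '' (convexHull ℝ {x, y, z}) := by
    intro x y z
    unfold Pool.Agent.Helper61.TriArea.tri
    have h4 := LinearMap.image_convexHull (e.toLinearEquiv.toLinearMap) ({x, y, z} : Set Plane)
    rw [Set.image_insert_eq, Set.image_insert_eq, Set.image_singleton] at h4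
    exact h4.symm
  refine Pool.Agent.Helper61.BeesonDir.main_complex a b c ha hb hc hab habc
    (fun i => e (p i)) (fun i => e (q i)) (fun i => e (r i))
    (fun i => by rw [e.dist_map]; exact h1 i) (fun i => by rw [e.dist_map]; exact h2 i)
    (fun i => by rw [e.dist_map]; exact h3 i) (e P) (e Q) (e R) X hX0
    (by rw [e.dist_map]; exact g1) (by rw [e.dist_map]; exact g2)
    (by rw [e.dist_map]; exact g3) ?_ ?_
  · rw [himg, ← hU, ← hunion, Set.image_iUnion]
    exact Set.iUnion_congr fun i => by rw [himg, ← hT i]
  · intro i k hik
    show Disjoint (interior (Pool.Agent.Helper61.TriArea.tri (e (p i)) (e (q i)) (e (r i))))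
      (interior (Pool.Agent.Helper61.TriArea.tri (e (p k)) (e (q k)) (e (r k))))
    rw [himg, himg, ← hT i, ← hT k, ← Homeomorph.image_interior, ← Homeomorph.image_interior]
    exact (Set.disjoint_image_iff e.toHomeomorph.injective).mpr (hdisj hik)

end Pool.Agent.Results.MP_9dc182_co.SideDivisible
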